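import Mathlib
import Pool.Graph.R_seed8.H436R3.KT.Main

/-!
# The functional for the root of order `n`

The general fibre of the family `h = t T ^ n`, where `h = z (x ^ 4 - y)` is a section of `O (4, 1)`
on `P^1 × P^1`. The coordinates are `x`, `q = x ^ 4 - y` and `T`, and `z = T ^ n / q`.
-/

set_option autoImplicit false

namespace Pool.Agent.KS6_82.KTn

open MvPolynomial Pool.Agent.H436R3.Fol Pool.Agent.H436R3.Can Pool.Agent.H436R3.KT

/-- The chart `ℂ [x, T ^ n / q, T]`. -/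
def pC (n : ℕ) : MP := ⟨![![1,0,0], ![0,-1,n], ![0,0,1]], ![![1,0,0], ![0,-1,n], ![0,0,1]],
  by
    intro i k
    fin_cases i <;> fin_cases k <;> simp [mulv, ev],
  by
    intro i k
    fin_cases i <;> fin_cases k <;> simp [mulv, ev]⟩

/-- The order at the curve. -/
noncomputable def vC (n : ℕ) : DVal K3 := vM (pC n) 2

variable {n : ℕ}

theorem vC_mono (e : Fin 3 → ℤ) : (vC n).ord (mono e) = n * e 1 + e 2 := by
  rw [vC, vM_mono]
  simp [mulv, pC]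
  ring

/-- The functional. -/
noncomputable def Ψ (n : ℕ) (f : K3) : ℤ := 4 * (vC n).ord f + n * vI.ord f - 4 * (vX 2).ord f

theorem Ψ_mul {f g : K3} (hf : f ≠ 0) (hg : g ≠ 0) : Ψ n (f * g) = Ψ n f + Ψ n g := by
  simp only [Ψ]
  rw [(vC n).map_mul _ _ hf hg, vI.map_mul _ _ hf hg, (vX 2).map_mul _ _ hf hg]
  ring

theorem vC_0 : (vC n).ord (vv 0) = 0 := by
  rw [← mono_ev, vC_mono]
  simp [ev]

theorem vC_1 : (vC n).ord (vv 1) = n := by
  rw [← mono_ev, vC_mono]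
  simp [ev]

theorem vC_2 : (vC n).ord (vv 2) = 1 := by
  rw [← mono_ev, vC_mono]
  simp [ev]

theorem vX2_0 : (vX 2).ord (vv 0) = 0 := by
  rw [vX_ord]
  rfl

theorem vX2_1 : (vX 2).ord (vv 1) = 0 := by
  rw [vX_ord]
  rfl

theorem vX2_2 : (vX 2).ord (vv 2) = 1 := by
  rw [vX_ord]
  rfl

theorem Ψ_0 : Ψ n (vv 0) = -n := by
  rw [Ψ, vC_0, vI_0, vX2_0]
  ring

theorem Ψ_1 : Ψ n (vv 1) = 0 := by
  rw [Ψ, vC_1, vI_1, vX2_1]
  ring

theorem Ψ_2 : Ψ n (vv 2) = 0 := by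
  rw [Ψ, vC_2, vI_2, vX2_2]
  ring

theorem Ψ_const {c : ℂ} (hc : c ≠ 0) : Ψ n (algebraMap ℂ K3 c) = 0 := by
  rw [Ψ, (vC n).const c hc, vI.const c hc, (vX 2).const c hc]
  ring

theorem mulv_pC (e : Fin 3 → ℤ) : mulv e (pC n).N 2 = n * e 1 + e 2 := by
  have h : mulv e (pC n).N 2 = e 0 * 0 + e 1 * n + e 2 * 1 := rfl
  rw [h]
  ring

/-- The key inequality. -/
theorem Ψ_le {p : Q3} (hp : p ≠ 0) (h2 : ¬ (X 2 : Q3) ∣ p) : Ψ n (io p) ≤ 0 := by
  have h0 : comp cw 0 p ≠ 0 := by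
    intro h
    apply h2
    apply X_dvd_of
    intro m hm hm2
    have h3 := coeff_comp cw 0 p m
    rw [h, coeff_zero, if_pos (by rw [W_cw, hm2]; rfl)] at h3
    exact hm h3.symm
  have hfin : FiniteMultiplicity (X 1 : Q3) (comp cw 0 p) := finMult (prime_X 1) h0
  obtain ⟨r, hr, hr1⟩ := hfin.exists_eq_pow_mul_and_not_dvd
  set j := multiplicity (X 1 : Q3) (comp cw 0 p) with hj
  have hr0 : r ≠ 0 := by
    rintro rfl
    exact hr1 (dvd_zero _)
  -- the curve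
  obtain ⟨m, hm, hm1⟩ : ∃ m, r.coeff m ≠ 0 ∧ m 1 = 0 := by
    by_contra hcon
    push Not at hcon
    exact hr1 (X_dvd_of hcon)
  have hc : (comp cw 0 p).coeff (Finsupp.single 1 j + m) ≠ 0 := by
    rw [hr, X_pow_eq_monomial, coeff_monomial_mul, one_mul]
    exact hm
  rw [coeff_comp] at hc
  rw [ite_ne_right_iff] at hc
  obtain ⟨hc1, hc2⟩ := hc
  rw [W_cw] at hc1
  have hC := vM_le (pC n) 2 hc2
  have h3 : mulv (fun l => ((Finsupp.single (1 : Fin 3) j + m) l : ℤ)) (pC n).N 2 = n * j := by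
    have h4 : ((Finsupp.single (1 : Fin 3) j + m) 1 : ℕ) = j := by
      rw [Finsupp.add_apply, Finsupp.single_eq_same, hm1, add_zero]
    rw [mulv_pC, hc1, h4]
    ring
  rw [h3] at hC
  -- infinity
  have hI := vI_comp hp h0
  have hI2 : vI.ord (io (comp cw 0 p)) = j * vI.ord (vv 1) + vI.ord (io r) := by
    rw [hr, map_mul, map_pow]
    change vI.ord (vv 1 ^ j * io r) = _
    rw [vI.map_mul _ _ (pow_ne_zero _ (vv_ne 1)) ((map_ne_zero_iff io io_inj).2 hr0),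
      vI.ord_pow (vv_ne 1) j]
  rw [hI2, vI_1] at hI
  have hI3 := vI_le_zero hr0
  have hT : (vX 2).ord (io p) = 0 := by
    have h4 : (vX 2).ord (io p) = (multiplicity (X 2 : Q3) p : ℤ) := valP_ord (prime_X 2) hp
    rw [h4, multiplicity_eq_zero.2 h2]
    rfl
  rw [Ψ, hT]
  change 4 * (vM (pC n) 2).ord (io p) + n * vI.ord (io p) - 4 * 0 ≤ 0
  have hn : (0 : ℤ) ≤ n := Int.natCast_nonneg n
  have h5 : vI.ord (io p) ≤ -4 * j := by linarith
  have h6 : (n : ℤ) * vI.ord (io p) ≤ n * (-4 * j) := mul_le_mul_of_nonneg_left h5 hn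
  linarith

theorem Ψ_add : Additive' (Ψ n) := ⟨fun _ _ hf hg => Ψ_mul hf hg, fun _ hc => Ψ_const hc⟩

theorem Ψ_pow {f : K3} (hf : f ≠ 0) (k : ℕ) : Ψ n (f ^ k) = k * Ψ n f := by
  simp only [Ψ]
  rw [(vC n).ord_pow hf, vI.ord_pow hf, (vX 2).ord_pow hf]
  ring

theorem not_dvd_X {p : Q3} (hp : Prime p) (h : Ψ n (io p) ≠ 0) {k : Fin 3} (hk : Ψ n (vv k) = 0) :
    ¬ p ∣ X k := by
  rintro ⟨c, hc⟩
  have h1 : IsUnit c := by
    have h2 := (prime_X k).irreducible.isUnit_or_isUnit hc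
    exact h2.resolve_left hp.not_isUnit
  have h3 : vv k = io p * io c := by
    rw [← map_mul, ← hc]
    rfl
  rw [h3, Ψ_mul (io_ne hp.ne_zero) (io_ne h1.ne_zero), Ψ_add.unit h1, add_zero] at hk
  exact h hk

end Pool.Agent.KS6_82.KTn
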