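import Mathlib
import Pool.Agent.KS6_82.KTn.Psi

/-!
# The general fibre
-/

set_option autoImplicit false

namespace Pool.Agent.KS6_82.KTn

open MvPolynomial Pool.Agent.H436R3.Fol Pool.Agent.H436R3.Can Pool.Agent.H436R3.KT

/-- The function `z = T ^ n / q`. -/
noncomputable def zv (n : ℕ) : K3 := mono ![0, -1, n]

variable {n : ℕ}

theorem zv_ne : zv n ≠ 0 := mono_ne _

theorem q_zv : vv 1 * zv n = vv 2 ^ n := by
  have h1 := vv_ne 1
  rw [zv, mono]
  simp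
  field_simp

/-- The generators `x ^ i y ^ j z`. -/
noncomputable def gz (n i j : ℕ) : K3 := zv n * (vv 0 ^ i * yv ^ j)

/-- The generators of the coordinate ring. -/
noncomputable def G1 (n : ℕ) : Set K3 :=
  insert (vv 2) (Set.range fun p : Fin 5 × Fin 2 => gz n p.1 p.2)

/-- The coordinate ring of the general fibre. -/
noncomputable def R1 (n : ℕ) : Subalgebra ℂ K3 := Algebra.adjoin ℂ (G1 n)

theorem G1_finite : (G1 n).Finite := (Set.finite_range _).insert _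

theorem T_mem1 : vv 2 ∈ R1 n := Algebra.subset_adjoin (Set.mem_insert _ _)

theorem gz_mem {i j : ℕ} (hi : i ≤ 4) (hj : j ≤ 1) : gz n i j ∈ R1 n :=
  Algebra.subset_adjoin (Set.mem_insert_of_mem _
    ⟨(⟨i, by omega⟩, ⟨j, by omega⟩), rfl⟩)

theorem z_mem1 : zv n ∈ R1 n := by
  have h := gz_mem (n := n) (i := 0) (j := 0) (by norm_num) (by norm_num)
  simpa [gz] using h

theorem z_refl (k : Fin 3) : zv n * (AlgEquiv.refl : K3 ≃ₐ[ℂ] K3) (vv k) ∈ R1 n := by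
  rw [AlgEquiv.coe_refl, id]
  fin_cases k
  · have h := gz_mem (n := n) (i := 1) (j := 0) (by norm_num) (by norm_num)
    simpa [gz] using h
  · change zv n * vv 1 ∈ R1 n
    rw [mul_comm, q_zv]
    exact pow_mem T_mem1 _
  · exact mul_mem z_mem1 T_mem1

/-- The general fibre. -/
noncomputable def X1 (n : ℕ) : AffVar K3 where
  R := R1 n
  fg := ⟨(G1_finite (n := n)).toFinset, by rw [Set.Finite.coe_toFinset]; rfl⟩
  frac := frac_of z_mem1 zv_ne AlgEquiv.refl z_refl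
  d := 3
  T := folT
  top := folT_space

theorem ord_gz (v : DVal K3) (i j : ℕ) :
    v.ord (gz n i j) = v.ord (zv n) + (i * v.ord (vv 0) + j * v.ord yv) := by
  rw [gz, v.map_mul _ _ zv_ne (mul_ne_zero (pow_ne_zero _ (vv_ne 0)) (pow_ne_zero _ yv_ne0)),
    v.map_mul _ _ (pow_ne_zero _ (vv_ne 0)) (pow_ne_zero _ yv_ne0), v.ord_pow (vv_ne 0),
    v.ord_pow yv_ne0]

theorem ord_zv (v : DVal K3) : v.ord (zv n) = n * v.ord (vv 2) - v.ord (vv 1) := by
  rw [zv, ord_mono]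
  simp
  ring

theorem R1_reg {v : DVal K3} (hT : 0 ≤ v.ord (vv 2))
    (h : ∀ i j : ℕ, i ≤ 4 → j ≤ 1 → 0 ≤ v.ord (zv n) + (i * v.ord (vv 0) + j * v.ord yv)) :
    ∀ f ∈ R1 n, v.Reg f := by
  intro f hf
  have h1 : R1 n ≤ regAlg v := by
    rw [R1, Algebra.adjoin_le_iff]
    rintro _ (rfl | ⟨p, rfl⟩)
    · exact v.reg_of_ord hT
    · refine v.reg_of_ord ?_
      rw [ord_gz]
      exact h _ _ (by omega) (by omega)
  exact h1 hf

theorem R1_reg' {v : DVal K3} (h : ∀ j, 0 ≤ v.ord (vv j)) (hz : 0 ≤ v.ord (zv n)) :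
    ∀ f ∈ R1 n, v.Reg f := by
  refine R1_reg (h 2) fun i j _ _ => ?_
  have h1 := yv_nonneg h
  have h2 := h 0
  positivity

theorem vC_zv : (vC n).ord (zv n) = 0 := by
  rw [ord_zv, vC_1, vC_2]
  ring

theorem vI_zv : vI.ord (zv n) = 4 := by
  rw [ord_zv, vI_1, vI_2]
  ring

theorem v0_zv : (vX 2).ord (zv n) = n := by
  rw [ord_zv, vX2_1, vX2_2]
  ring

theorem vC_reg : ∀ f ∈ R1 n, (vC n).Reg f := by
  refine R1_reg' (fun j => ?_) vC_zv.ge
  fin_cases j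
  · exact vC_0.ge
  · change 0 ≤ (vC n).ord (vv 1)
    rw [vC_1]
    positivity
  · change 0 ≤ (vC n).ord (vv 2)
    rw [vC_2]
    norm_num

theorem vI_reg : ∀ f ∈ R1 n, vI.Reg f := by
  refine R1_reg vI_2.ge fun i j hi _ => ?_
  have h1 : vI.ord yv = 0 := vI_y
  rw [vI_zv, vI_0, h1]
  have : (i : ℤ) ≤ 4 := by exact_mod_cast hi
  linarith

theorem vC_on1 : IsLocalRing' (R1 n) (vC n) := by
  refine on_of z_mem1 zv_ne (pC n).τ (fun k => ?_) (vM_on (pC n) 2) vC_reg vC_zv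
  rw [MP.τ_vv]
  fin_cases k
  · change zv n * mono ![1, 0, 0] ∈ R1 n
    have h := gz_mem (n := n) (i := 1) (j := 0) (by norm_num) (by norm_num)
    simpa [gz, mono] using h
  · change zv n * mono ![0, -1, n] ∈ R1 n
    exact mul_mem z_mem1 z_mem1
  · change zv n * mono ![0, 0, 1] ∈ R1 n
    have h := mul_mem (z_mem1 (n := n)) T_mem1
    simpa [mono] using h

theorem vI_on1 : IsLocalRing' (R1 n) vI := by
  have h4 := gz_mem (n := n) (i := 4) (j := 0) (by norm_num) (by norm_num)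
  have e4 : gz n 4 0 = zv n * vv 0 ^ 4 := by simp [gz]
  rw [e4] at h4
  have h0 := vv_ne 0
  refine on_of h4 (mul_ne_zero zv_ne (pow_ne_zero _ h0)) τI (fun k => ?_) vI_on vI_reg ?_
  · fin_cases k
    · change zv n * vv 0 ^ 4 * τI (vv 0) ∈ R1 n
      have h := gz_mem (n := n) (i := 3) (j := 0) (by norm_num) (by norm_num)
      have e : zv n * vv 0 ^ 4 * τI (vv 0) = gz n 3 0 := by
        rw [τI_0]
        simp only [gz, pow_zero, mul_one]
        field_simp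
      rw [e]
      exact h
    · change zv n * vv 0 ^ 4 * τI (vv 1) ∈ R1 n
      have h := gz_mem (n := n) (i := 4) (j := 1) (by norm_num) (by norm_num)
      have e : zv n * vv 0 ^ 4 * τI (vv 1) = gz n 4 1 := by
        rw [τI_1]
        simp only [gz, pow_one]
        ring
      rw [e]
      exact h
    · change zv n * vv 0 ^ 4 * τI (vv 2) ∈ R1 n
      rw [τI_2]
      exact mul_mem h4 T_mem1
  · rw [vI.map_mul _ _ zv_ne (pow_ne_zero _ h0), vI.ord_pow h0, vI_zv, vI_0]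
    norm_num

/-- The divisors on the affine space away from `q T = 0`. -/
theorem valP_on1 {p : Q3} (hp : Prime p) (h1 : (valP K3 p hp).ord (vv 1) = 0)
    (h2 : (valP K3 p hp).ord (vv 2) = 0) : IsLocalRing' (R1 n) (valP K3 p hp) := by
  have hv := valP_divisor hp
  have hz : (valP K3 p hp).ord (zv n) = 0 := by
    rw [ord_zv, h1, h2]
    ring
  refine on_of z_mem1 zv_ne AlgEquiv.refl z_refl ?_ (R1_reg' (vv_nonneg hv) hz.ge) hz
  rw [RR_refl]
  exact hv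

theorem v0_reg : ∀ f ∈ R1 n, (vX 2).Reg f := by
  refine R1_reg' (vv_nonneg (valP_divisor (prime_X 2))) ?_
  rw [v0_zv]
  positivity

/-- The divisor over the vertex. -/
theorem v0_over : ∃ S : Subalgebra ℂ K3, S.FG ∧ R1 n ≤ S ∧ IsLocalRing' S (vX 2) := by
  refine ⟨Algebra.adjoin ℂ (insert (vv 1)⁻¹ (Set.range vv)),
    ⟨((Set.finite_range vv).insert _).toFinset, by rw [Set.Finite.coe_toFinset]⟩, ?_, ?_, ?_⟩
  · have hm : ∀ k, vv k ∈ Algebra.adjoin ℂ (insert (vv 1)⁻¹ (Set.range vv)) := fun k =>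
      Algebra.subset_adjoin (Set.mem_insert_of_mem _ ⟨k, rfl⟩)
    have hi : (vv 1)⁻¹ ∈ Algebra.adjoin ℂ (insert (vv 1)⁻¹ (Set.range vv)) :=
      Algebra.subset_adjoin (Set.mem_insert _ _)
    have hz : zv n ∈ Algebra.adjoin ℂ (insert (vv 1)⁻¹ (Set.range vv)) := by
      have h1 : zv n = (vv 1)⁻¹ * vv 2 ^ n := by
        rw [← q_zv, ← mul_assoc, inv_mul_cancel₀ (vv_ne 1), one_mul]
      rw [h1]
      exact mul_mem hi (pow_mem (hm 2) _)
    rw [R1, Algebra.adjoin_le_iff]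
    rintro _ (rfl | ⟨p, rfl⟩)
    · exact hm 2
    · exact mul_mem hz (mul_mem (pow_mem (hm 0) _)
        (pow_mem (sub_mem (pow_mem (hm 0) _) (hm 1)) _))
  · intro f hf
    have h1 : Algebra.adjoin ℂ (insert (vv 1)⁻¹ (Set.range vv)) ≤ regAlg (vX 2) := by
      rw [Algebra.adjoin_le_iff]
      rintro _ (rfl | ⟨k, rfl⟩)
      · refine (vX 2).reg_inv (vv_ne 1) ?_
        rw [vX_ord]
        rfl
      · exact (vX 2).reg_of_ord (vv_nonneg (valP_divisor (prime_X 2)) k)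
    exact h1 hf
  · intro f hf
    have h1 : QK ≤ Algebra.adjoin ℂ (insert (vv 1)⁻¹ (Set.range vv)) := by
      rw [← RR_refl]
      refine RR_le _ fun k => ?_
      exact Algebra.subset_adjoin (Set.mem_insert_of_mem _ ⟨k, rfl⟩)
    obtain ⟨a, b, ha, hb, h⟩ := (valP_divisor (prime_X 2)).2 f hf
    exact ⟨a, b, h1 ha, h1 hb, h⟩

theorem v0_const [NeZero n] : ∀ f ∈ R1 n, ∃ c : ℂ, (vX 2).Pos (f - algebraMap ℂ K3 c) := by
  intro f hf
  induction hf using Algebra.adjoin_induction with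
  | mem f hf =>
    refine ⟨0, ?_⟩
    rw [map_zero, sub_zero]
    rcases hf with rfl | ⟨p, rfl⟩
    · right
      rw [vX_ord]
      decide
    · right
      simp only
      rw [ord_gz, v0_zv, vX2_0]
      have h1 := yv_nonneg (v := vX 2) (vv_nonneg (valP_divisor (prime_X 2)))
      have h2 : 0 ≤ ((p.2 : ℕ) : ℤ) * (vX 2).ord yv := by positivity
      have h3 : (0 : ℤ) < n := by exact_mod_cast NeZero.pos n
      linarith
  | algebraMap c => exact ⟨c, Or.inl (sub_self _)⟩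
  | add f g _ _ hf hg =>
    obtain ⟨a, ha⟩ := hf
    obtain ⟨b, hb⟩ := hg
    refine ⟨a + b, ?_⟩
    rw [map_add]
    have h3 : f + g - (algebraMap ℂ K3 a + algebraMap ℂ K3 b) =
        (f - algebraMap ℂ K3 a) + (g - algebraMap ℂ K3 b) := by ring
    rw [h3]
    exact (vX 2).pos_add ha hb
  | mul f g hf' _ hf hg =>
    obtain ⟨a, ha⟩ := hf
    obtain ⟨b, hb⟩ := hg
    refine ⟨a * b, ?_⟩
    rw [map_mul]
    have h3 : f * g - (algebraMap ℂ K3 a * algebraMap ℂ K3 b) =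
        f * (g - algebraMap ℂ K3 b) + algebraMap ℂ K3 b * (f - algebraMap ℂ K3 a) := by ring
    rw [h3]
    exact (vX 2).pos_add ((vX 2).pos_mul_left (v0_reg f hf') hb)
      ((vX 2).pos_mul_left ((vX 2).reg_const _) ha)

/-- The vertex. -/
noncomputable def P1 (n : ℕ) [NeZero n] : Pt (X1 n) := evalHom (vX 2) (R1 n) v0_const

theorem R1_loc : ∀ f ∈ R1 n, ∃ k : ℕ, vv 1 ^ k * f ∈ QK := by
  intro f hf
  induction hf using Algebra.adjoin_induction with
  | mem f hf =>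
    rcases hf with rfl | ⟨p, rfl⟩
    · exact ⟨0, mul_mem (pow_mem (vv_mem 1) _) (vv_mem 2)⟩
    · refine ⟨1, ?_⟩
      have h1 : vv 1 ^ 1 * gz n p.1 p.2 = vv 2 ^ n * (vv 0 ^ (p.1 : ℕ) * yv ^ (p.2 : ℕ)) := by
        rw [pow_one, gz, ← mul_assoc, q_zv]
      simp only
      rw [h1]
      exact mul_mem (pow_mem (vv_mem 2) _) (mul_mem (pow_mem (vv_mem 0) _)
        (pow_mem (sub_mem (pow_mem (vv_mem 0) _) (vv_mem 1)) _))
  | algebraMap c => exact ⟨0, mul_mem (pow_mem (vv_mem 1) _) (Subalgebra.algebraMap_mem _ _)⟩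
  | add f g _ _ hf hg =>
    obtain ⟨a, ha⟩ := hf
    obtain ⟨b, hb⟩ := hg
    refine ⟨a + b, ?_⟩
    have h3 : vv 1 ^ (a + b) * (f + g) = vv 1 ^ b * (vv 1 ^ a * f) + vv 1 ^ a * (vv 1 ^ b * g) := by
      ring
    rw [h3]
    exact add_mem (mul_mem (pow_mem (vv_mem 1) _) ha) (mul_mem (pow_mem (vv_mem 1) _) hb)
  | mul f g _ _ hf hg =>
    obtain ⟨a, ha⟩ := hf
    obtain ⟨b, hb⟩ := hg
    refine ⟨a + b, ?_⟩
    have h3 : vv 1 ^ (a + b) * (f * g) = (vv 1 ^ a * f) * (vv 1 ^ b * g) := by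
      ring
    rw [h3]
    exact mul_mem ha hb

/-- The centres of the divisors contain the vertex. -/
theorem through [NeZero n] {f : K3} (hf : f ∈ R1 n) (hf0 : f ≠ 0) (h0 : (vX 2).ord f = 0) :
    (vC n).ord f = 0 ∧ vI.ord f = 0 ∧ ∀ (p : Q3) (hp : Prime p), Ψ n (io p) < 0 →
      (valP K3 p hp).ord f = 0 := by
  obtain ⟨k, hk⟩ := R1_loc f hf
  obtain ⟨a, ha⟩ := mem_QK.1 hk
  have hk0 : vv 1 ^ k ≠ 0 := pow_ne_zero _ (vv_ne 1)
  have ha0 : a ≠ 0 := by
    rintro rfl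
    rw [map_zero] at ha
    exact mul_ne_zero hk0 hf0 ha.symm
  have h1 : (vX 2).ord (io a) = 0 := by
    rw [ha, (vX 2).map_mul _ _ hk0 hf0, (vX 2).ord_pow (vv_ne 1), vX_ord, h0]
    simp
  have h2 : ¬ (X 2 : Q3) ∣ a := by
    intro h
    have h3 := ((valP_pos_iff (K := K3) (prime_X 2) a).2 h).resolve_left (io_ne ha0)
    change 0 < (vX 2).ord (io a) at h3
    omega
  have h3 := Ψ_le (n := n) ha0 h2
  have h4 : Ψ n (io a) = 4 * (vC n).ord f + n * vI.ord f := by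
    rw [ha, Ψ_mul hk0 hf0, Ψ_pow (vv_ne 1), Ψ_1, Ψ, h0]
    ring
  have h5 := (vC n).ord_nonneg hf0 (vC_reg f hf)
  have h6 := vI.ord_nonneg hf0 (vI_reg f hf)
  have hn : (0 : ℤ) < n := by exact_mod_cast NeZero.pos n
  have h6' : 0 ≤ (n : ℤ) * vI.ord f := mul_nonneg hn.le h6
  refine ⟨by linarith, ?_, fun p hp hpn => ?_⟩
  · have h7 : (n : ℤ) * vI.ord f = 0 := by linarith
    exact (mul_eq_zero.1 h7).resolve_left hn.ne'
  have h7 : ¬ p ∣ a := by
    rintro ⟨b, rfl⟩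
    have hb0 : b ≠ 0 := right_ne_zero_of_mul ha0
    have h8 := Ψ_le (n := n) hb0 fun h => h2 (h.mul_left p)
    rw [map_mul, Ψ_mul (io_ne hp.ne_zero) (io_ne hb0)] at h4
    linarith
  have h8 := valP_zero hp ha0 h7
  have h9 := valP_zero hp (X_ne_zero 1) (not_dvd_X hp hpn.ne Ψ_1)
  have h10 : (valP K3 p hp).ord (vv 1) = 0 := h9
  rw [ha, (valP K3 p hp).map_mul _ _ hk0 hf0, (valP K3 p hp).ord_pow (vv_ne 1), h10] at h8
  simpa using h8

variable [NeZero n]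

theorem P1_unit {f : (X1 n).R} (hf : P1 n f ≠ 0) : (f : K3) ≠ 0 ∧ (vX 2).ord (f : K3) = 0 :=
  evalHom_ord _ _ _ f hf

theorem vC_at : OnAt (P1 n) (vC n) := by
  refine ⟨vC_on1, fun f hf => ?_⟩
  by_contra h
  obtain ⟨h0, h1⟩ := P1_unit h
  have h2 := (through f.2 h0 h1).1
  have h3 := hf.resolve_left h0
  omega

theorem vI_at : OnAt (P1 n) vI := by
  refine ⟨vI_on1, fun f hf => ?_⟩
  by_contra h
  obtain ⟨h0, h1⟩ := P1_unit h
  have h2 := (through f.2 h0 h1).2.1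
  have h3 := hf.resolve_left h0
  omega

theorem valP_at {p : Q3} (hp : Prime p) (hpn : Ψ n (io p) < 0) : OnAt (P1 n) (valP K3 p hp) := by
  refine ⟨valP_on1 hp (valP_zero hp (X_ne_zero 1) (not_dvd_X hp hpn.ne Ψ_1))
    (valP_zero hp (X_ne_zero 2) (not_dvd_X hp hpn.ne Ψ_2)), fun f hf => ?_⟩
  by_contra h
  obtain ⟨h0, h1⟩ := P1_unit h
  have h2 := (through f.2 h0 h1).2.2 p hp hpn
  have h3 := hf.resolve_left h0
  omega

theorem v0_at : OverAt (P1 n) (vX 2) := by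
  refine ⟨v0_over, fun f hf => ?_⟩
  by_contra h
  obtain ⟨h0, h1⟩ := P1_unit h
  have h3 := hf.resolve_left h0
  omega

end Pool.Agent.KS6_82.KTn
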