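import Mathlib
import Pool.Agent.KS6_82.KTn.R1

/-!
# The discrepancy of the divisor over the vertex
-/

set_option autoImplicit false

namespace Pool.Agent.KS6_82.KTn

open MvPolynomial Pool.Agent.H436R3.Fol Pool.Agent.H436R3.Can Pool.Agent.H436R3.KT

/-- Near the closed point `P` of `X`, the divisor `K_X + B` is `∑ ρ_i div (g_i)`. -/
def IsLocalEqAt {K : Type} [Field K] [Algebra ℂ K] {X : AffVar K} (B : EffDiv X) (P : Pt X)
    {m : ℕ} (ρ : Fin m → ℝ) (g : Fin m → K) : Prop :=
  (∀ i, g i ≠ 0) ∧ ∀ v, OnAt P v → ∃ a : ℤ, IsCanOrd X.T v a ∧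
    (a : ℝ) + B.mult v = ∑ i, ρ i * (v.ord (g i) : ℝ)

variable {n : ℕ} [NeZero n]

/-- The canonical order at the divisor `T = 0`. -/
theorem v0_isCan : IsCanOrd folT (vX 2) (-1) := by
  have hdet : (Matrix.diagonal (Function.update (1 : Fin 3 → K3) 2 (vv 2)⁻¹)).det = (vv 2)⁻¹ := by
    rw [Matrix.det_diagonal, Finset.prod_update_of_mem (Finset.mem_univ _)]
    simp
  have hv := valP_divisor (prime_X (2 : Fin 3))
  refine ⟨⟨Matrix.diagonal (Function.update (1 : Fin 3 → K3) 2 (vv 2)⁻¹), ?_, ?_, ?_⟩, ?_⟩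
  · rw [hdet]
    exact inv_ne_zero (vv_ne 2)
  · intro i
    rw [diag_sum]
    have hpres : ∀ k, Preserves (vX 2) (th k) := fun k =>
      preserves_of _ hv fun f hf => hv.1 _ (th_mem k hf)
    fin_cases i
    · change Preserves (vX 2) (Function.update (1 : Fin 3 → K3) 2 (vv 2)⁻¹ 0 • th 0)
      rw [Function.update_of_ne (by decide), Pi.one_apply, one_smul]
      exact hpres 0
    · change Preserves (vX 2) (Function.update (1 : Fin 3 → K3) 2 (vv 2)⁻¹ 1 • th 1)
      rw [Function.update_of_ne (by decide), Pi.one_apply, one_smul]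
      exact hpres 1
    · change Preserves (vX 2) (Function.update (1 : Fin 3 → K3) 2 (vv 2)⁻¹ 2 • th 2)
      rw [Function.update_self]
      exact preserves_of _ hv fun f hf => hv.1 _ (pd_mem 2 hf)
  · rw [hdet, (vX 2).ord_inv (vv_ne 2), vX_ord]
    rfl
  · rintro a ⟨A, hA0, hA, hAa⟩
    rw [← hAa]
    exact T_lower _ hA0 hA

/-- The discrepancy of the divisor over the vertex is at most `- n / 2`, for all boundaries. -/
theorem discr_le (B : EffDiv (X1 n)) {m : ℕ} (ρ : Fin m → ℝ) (g : Fin m → K3)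
    (h : IsLocalEqAt B (P1 n) ρ g) :
    (n : ℝ) / 2 - 1 ≤ ∑ i, ρ i * ((vX 2).ord (g i) : ℝ) := by
  classical
  obtain ⟨hg, h1⟩ := h
  obtain ⟨S, hS1, hS2, hS3⟩ := exists_primes g hg
  have hn : (0 : ℝ) ≤ n := Nat.cast_nonneg n
  -- the order of the local equation
  set φ : DVal K3 → ℝ := fun v => ∑ i, ρ i * (v.ord (g i) : ℝ) with hφ
  have eC : -1 ≤ φ (vC n) := by
    obtain ⟨a, ha, ha'⟩ := h1 _ vC_at
    have h3 := can_lower ha
    have h4 : (-1 : ℝ) ≤ a := by exact_mod_cast h3
    have h5 := mult_nonneg B (vC n)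
    change (a : ℝ) + B.mult (vC n) = φ (vC n) at ha'
    linarith
  have eI : 3 ≤ φ vI := by
    obtain ⟨a, ha, ha'⟩ := h1 _ vI_at
    have h3 := can_I ha
    have h4 : (3 : ℝ) ≤ a := by exact_mod_cast h3
    have h5 := mult_nonneg B vI
    change (a : ℝ) + B.mult vI = φ vI at ha'
    linarith
  -- the identity
  have key : 4 * φ (vC n) + n * φ vI - 4 * φ (vX 2) =
      ∑ p ∈ S, (∑ i, ρ i * (ordP p (g i) : ℝ)) * (Ψ n (io p) : ℝ) := by
    have h3 : ∑ p ∈ S, (∑ i, ρ i * (ordP p (g i) : ℝ)) * (Ψ n (io p) : ℝ) =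
        ∑ i, ρ i * (Ψ n (g i) : ℝ) := by
      simp only [Finset.sum_mul]
      rw [Finset.sum_comm]
      refine Finset.sum_congr rfl fun i _ => ?_
      have h4 := hS3 (Ψ n) Ψ_add i
      rw [h4]
      push_cast
      rw [Finset.mul_sum]
      refine Finset.sum_congr rfl fun p _ => ?_
      ring
    rw [h3, hφ]
    simp only
    rw [Finset.mul_sum, Finset.mul_sum, Finset.mul_sum, ← Finset.sum_add_distrib,
      ← Finset.sum_sub_distrib]
    refine Finset.sum_congr rfl fun i _ => ?_
    rw [Ψ]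
    push_cast
    ring
  have hterm : ∀ p ∈ S, (∑ i, ρ i * (ordP p (g i) : ℝ)) * (Ψ n (io p) : ℝ) ≤
      if Associated p (X 0) then (n : ℝ) else 0 := by
    intro p hpS
    have hp := hS1 p hpS
    have hφp : (∑ i, ρ i * (ordP p (g i) : ℝ)) = φ (valP K3 p hp) := rfl
    rw [hφp]
    by_cases h2p : (X 2 : Q3) ∣ p
    · -- `p` is the variable `T`
      have h3 : Ψ n (io p) = 0 := by
        obtain ⟨c, hc⟩ := h2p
        have h4 : IsUnit c := (hp.irreducible.isUnit_or_isUnit hc).resolve_left
          (prime_X 2).not_isUnit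
        have h5 : io p = vv 2 * io c := by
          rw [hc, map_mul]
          rfl
        rw [h5, Ψ_mul (vv_ne 2) (io_ne h4.ne_zero), Ψ_2, Ψ_add.unit h4, add_zero]
      rw [h3, Int.cast_zero, mul_zero]
      split_ifs
      · exact hn
      · exact le_rfl
    · have h3 := Ψ_le (n := n) hp.ne_zero h2p
      rcases h3.eq_or_lt with h4 | h4
      · rw [h4, Int.cast_zero, mul_zero]
        split_ifs
        · exact hn
        · exact le_rfl
      · obtain ⟨a, ha, ha'⟩ := h1 _ (valP_at hp h4)
        have h5 := mult_nonneg B (valP K3 p hp)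
        change (a : ℝ) + B.mult (valP K3 p hp) = φ (valP K3 p hp) at ha'
        have hneg : (Ψ n (io p) : ℝ) < 0 := by exact_mod_cast h4
        split_ifs with hx
        · have h6 := can_lower ha
          have h7 : (-1 : ℝ) ≤ a := by exact_mod_cast h6
          have h8 : Ψ n (io p) = -n := by
            obtain ⟨u, hu⟩ := hx
            have h9 : vv 0 = io p * io u := by
              rw [← map_mul, hu]
              rfl
            have h10 := Ψ_0 (n := n)
            rw [h9, Ψ_mul (io_ne hp.ne_zero) (io_ne u.isUnit.ne_zero), Ψ_add.unit u.isUnit,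
              add_zero] at h10
            exact h10
          rw [h8]
          push_cast
          have h9 : -1 ≤ φ (valP K3 p hp) := by linarith
          nlinarith
        · have hx' : ¬ p ∣ X 0 := by
            intro h
            exact hx (hp.associated_of_dvd (prime_X 0) h)
          have h6 := can_lower_zero ha (by
            intro j
            fin_cases j
            · exact valP_zero hp (X_ne_zero 0) hx'
            · exact valP_zero hp (X_ne_zero 1) (not_dvd_X hp h4.ne Ψ_1)
            · exact valP_zero hp (X_ne_zero 2) (not_dvd_X hp h4.ne Ψ_2))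
          have h7 : (0 : ℝ) ≤ a := by exact_mod_cast h6
          have h8 : 0 ≤ φ (valP K3 p hp) := by linarith
          exact mul_nonpos_of_nonneg_of_nonpos h8 hneg.le
  have hsum : ∑ p ∈ S, (if Associated p (X 0 : Q3) then (n : ℝ) else 0) ≤ n := by
    rw [← Finset.sum_filter, Finset.sum_const, nsmul_eq_mul]
    have hcard : (S.filter fun p => Associated p (X 0 : Q3)).card ≤ 1 := by
      rw [Finset.card_le_one]
      intro p hp q hq
      rw [Finset.mem_filter] at hp hq
      exact hS2 p hp.1 q hq.1 (hp.2.trans hq.2.symm)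
    have h3 : ((S.filter fun p => Associated p (X 0 : Q3)).card : ℝ) ≤ 1 := by
      exact_mod_cast hcard
    nlinarith
  have h3 := Finset.sum_le_sum hterm
  rw [← key] at h3
  have h4 : (n : ℝ) * 3 ≤ n * φ vI := mul_le_mul_of_nonneg_left eI hn
  change (n : ℝ) / 2 - 1 ≤ φ (vX 2)
  linarith

end Pool.Agent.KS6_82.KTn
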