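import Mathlib
import Pool.Agent.KS6_82.KTn.R1

/-!
# The family `h = t T ^ n`
-/

set_option autoImplicit false

namespace Pool.Agent.KS6_82.KTn

open Pool.Agent.H436R3.Fol Pool.Agent.H436R3.Can Pool.Agent.H436R3.KT

variable (n : ℕ)

/-- The equation `h - t T ^ n`. -/
noncomputable def eqD : CT :=
  Polynomial.C (Polynomial.C hT) - Polynomial.X * Polynomial.C (Polynomial.X ^ n)

/-- The coordinate ring of the family. -/
def RF : Type := CT ⧸ Ideal.span {eqD n}

noncomputable instance : CommRing (RF n) := inferInstanceAs (CommRing (CT ⧸ Ideal.span {eqD n}))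
noncomputable instance : Algebra ℂ (RF n) := inferInstanceAs (Algebra ℂ (CT ⧸ Ideal.span {eqD n}))

/-- The projection. -/
noncomputable def mkF : CT →ₐ[ℂ] RF n := Ideal.Quotient.mkₐ ℂ (Ideal.span {eqD n})

variable {n}

theorem mkF_surj : Function.Surjective (mkF n) := Ideal.Quotient.mkₐ_surjective _ _

theorem mkF_zero {f : CT} : mkF n f = 0 ↔ eqD n ∣ f := by
  rw [← Ideal.mem_span_singleton]
  exact Ideal.Quotient.eq_zero_iff_mem

variable (n) in
/-- The parameter. -/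
noncomputable def tF : RF n := mkF n Polynomial.X

variable (n) in
/-- The equation of the fibre. -/
noncomputable def eqc (c : ℂ) : BT := Polynomial.C hT - algebraMap ℂ BT c * Polynomial.X ^ n

theorem evl_eqD (c : ℂ) : evl c (eqD n) = eqc n c := by
  rw [evl_eval, eqD, Polynomial.eval_sub, Polynomial.eval_C, Polynomial.eval_mul,
    Polynomial.eval_X, Polynomial.eval_C, eqc]

theorem eqc_ne [NeZero n] (c : ℂ) : eqc n c ≠ 0 := by
  intro h
  have h1 := congrArg (fun p : BT => p.coeff 0) h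
  simp only [eqc] at h1
  rw [Polynomial.coeff_sub, Polynomial.coeff_C_zero, Polynomial.coeff_zero,
    Polynomial.coeff_mul_X_pow', if_neg (by have := NeZero.pos n; omega), sub_zero] at h1
  exact hA_ne h1

theorem mk_X_sub (c : ℂ) (f : CT) : mkF n
    ((Polynomial.X - Polynomial.C (algebraMap ℂ BT c)) * f) =
      (tF n - algebraMap ℂ (RF n) c) * mkF n f := by
  have h : mkF n (Polynomial.C (algebraMap ℂ BT c)) = algebraMap ℂ (RF n) c := (mkF n).commutes c
  rw [map_mul, map_sub, h, tF]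

/-- The elements `t - c` are regular. -/
theorem regular [NeZero n] (c : ℂ) {x : RF n} (h : (tF n - algebraMap ℂ (RF n) c) * x = 0) :
    x = 0 := by
  obtain ⟨f, rfl⟩ := mkF_surj x
  rw [← mk_X_sub, mkF_zero] at h
  obtain ⟨g, hg⟩ := h
  have h1 := congrArg (evl c) hg
  have h2 : evl c ((Polynomial.X - Polynomial.C (algebraMap ℂ BT c)) * f) = 0 := by
    rw [evl_eval]
    simp
  rw [h2, map_mul, evl_eqD] at h1
  have h3 : evl c g = 0 := (mul_eq_zero.1 h1.symm).resolve_left (eqc_ne c)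
  obtain ⟨g', rfl⟩ := X_sub_dvd h3
  have h4 : (Polynomial.X - Polynomial.C (algebraMap ℂ BT c) : CT) ≠ 0 :=
    Polynomial.X_sub_C_ne_zero _
  have h5 : f = eqD n * g' := by
    apply mul_left_cancel₀ h4
    rw [hg]
    ring
  rw [mkF_zero, h5]
  exact dvd_mul_right _ _

theorem torsion_free [NeZero n] (k : ℕ) : ∀ s : Polynomial ℂ, s.natDegree = k → s ≠ 0 →
    ∀ x : RF n, Polynomial.aeval (tF n) s * x = 0 → x = 0 := by
  induction k with
  | zero =>
    intro s hs hs0 x hx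
    rw [Polynomial.eq_C_of_natDegree_eq_zero hs] at hx hs0
    rw [Polynomial.aeval_C] at hx
    have hc : s.coeff 0 ≠ 0 := fun h => hs0 (by rw [h, Polynomial.C_0])
    have h1 : algebraMap ℂ (RF n) (s.coeff 0)⁻¹ * (algebraMap ℂ (RF n) (s.coeff 0) * x) = 0 := by
      rw [hx, mul_zero]
    rwa [← mul_assoc, ← map_mul, inv_mul_cancel₀ hc, map_one, one_mul] at h1
  | succ k ih =>
    intro s hs hs0 x hx
    have hdeg : s.degree ≠ 0 := by
      intro h
      have := Polynomial.natDegree_eq_zero_iff_degree_le_zero.2 h.le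
      omega
    obtain ⟨c, hc⟩ := IsAlgClosed.exists_root s hdeg
    obtain ⟨s', rfl⟩ := Polynomial.dvd_iff_isRoot.2 hc
    have hs' : s' ≠ 0 := right_ne_zero_of_mul hs0
    have hn : s'.natDegree = k := by
      rw [Polynomial.natDegree_mul (Polynomial.X_sub_C_ne_zero c) hs',
        Polynomial.natDegree_X_sub_C] at hs
      omega
    refine ih s' hn hs' x ?_
    rw [map_mul, map_sub, Polynomial.aeval_X, Polynomial.aeval_C, mul_assoc] at hx
    exact regular c hx

theorem flatF [NeZero n] :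
    (Polynomial.aeval (tF n) : Polynomial ℂ →ₐ[ℂ] RF n).toRingHom.Flat := by
  rw [RingHom.Flat]
  letI : Algebra (Polynomial ℂ) (RF n) :=
    (Polynomial.aeval (tF n) : Polynomial ℂ →ₐ[ℂ] RF n).toRingHom.toAlgebra
  have h1 : Module.IsTorsionFree (Polynomial ℂ) (RF n) := by
    refine Module.IsTorsionFree.of_smul_eq_zero fun s x h => ?_
    by_cases hs : s = 0
    · exact Or.inl hs
    · exact Or.inr (torsion_free _ s rfl hs x h)
  infer_instance

theorem fgF : Algebra.FiniteType ℂ (RF n) := by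
  have h1 : Algebra.FiniteType ℂ AmT := (Subalgebra.fg_iff_finiteType _).1 Am_fg
  have h2 : Algebra.FiniteType ℂ CT := inferInstance
  exact Algebra.FiniteType.of_surjective (mkF n) mkF_surj

theorem βA_eqc (g : Fin 3 → K3) (T : K3) (c : ℂ)
    (hg : g 2 * (g 0 ^ 4 - g 1) = algebraMap ℂ K3 c * T ^ n) : βA g T (eqc n c) = 0 := by
  rw [eqc, map_sub, map_mul, map_pow, AlgHom.commutes]
  simp only [βA, Polynomial.aevalTower_C, Polynomial.aevalTower_X]
  rw [αA_h, hg, sub_self]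

/-- The map to the function field of the fibre. -/
noncomputable def θF (g : Fin 3 → K3) (T : K3) (c : ℂ)
    (hg : g 2 * (g 0 ^ 4 - g 1) = algebraMap ℂ K3 c * T ^ n) : RF n →ₐ[ℂ] K3 :=
  Ideal.Quotient.liftₐ (Ideal.span {eqD n}) ((βA g T).comp (evl c)) (by
    intro a ha
    rw [Ideal.mem_span_singleton] at ha
    obtain ⟨b, rfl⟩ := ha
    rw [AlgHom.comp_apply, map_mul, map_mul, evl_eqD, βA_eqc g T c hg, zero_mul])

theorem θF_mk (g : Fin 3 → K3) (T : K3) (c : ℂ)
    (hg : g 2 * (g 0 ^ 4 - g 1) = algebraMap ℂ K3 c * T ^ n) (f : CT) :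
    θF g T c hg (mkF n f) = βA g T (evl c f) := rfl

theorem θF_t (g : Fin 3 → K3) (T : K3) (c : ℂ)
    (hg : g 2 * (g 0 ^ 4 - g 1) = algebraMap ℂ K3 c * T ^ n) :
    θF g T c hg (tF n - algebraMap ℂ (RF n) c) = 0 := by
  rw [map_sub, tF, θF_mk, evl_eval, Polynomial.eval_X, AlgHom.commutes, AlgHom.commutes, sub_self]

/-- The kernel. -/
theorem θF_ker (g : Fin 3 → K3) (T : K3) (c : ℂ)
    (hg : g 2 * (g 0 ^ 4 - g 1) = algebraMap ℂ K3 c * T ^ n)
    (hk : ∀ b : BT, βA g T b = 0 → eqc n c ∣ b) {x : RF n} (hx : θF g T c hg x = 0) :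
    x ∈ Ideal.span {tF n - algebraMap ℂ (RF n) c} := by
  obtain ⟨f, rfl⟩ := mkF_surj x
  rw [θF_mk] at hx
  obtain ⟨b, hb⟩ := hk _ hx
  have h1 : evl c (f - eqD n * Polynomial.C b) = 0 := by
    rw [map_sub, map_mul, evl_eqD, hb]
    have h2 : evl c (Polynomial.C b) = b := by
      rw [evl_eval, Polynomial.eval_C]
    rw [h2, sub_self]
  obtain ⟨f', hf'⟩ := X_sub_dvd h1
  have h2 : mkF n f = mkF n (f - eqD n * Polynomial.C b) := by
    rw [← sub_eq_zero, ← map_sub, sub_sub_cancel, mkF_zero]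
    exact dvd_mul_right _ _
  rw [h2, hf', mk_X_sub, Ideal.mem_span_singleton]
  exact dvd_mul_right _ _

theorem θF_mem {S : Subalgebra ℂ K3} {g : Fin 3 → K3} {T : K3} {c : ℂ}
    (hg : g 2 * (g 0 ^ 4 - g 1) = algebraMap ℂ K3 c * T ^ n) (hT : T ∈ S)
    (h : ∀ i j, i ≤ 4 → j ≤ 1 → g 2 * (g 0 ^ i * g 1 ^ j) ∈ S) (x : RF n) : θF g T c hg x ∈ S := by
  obtain ⟨f, rfl⟩ := mkF_surj x
  rw [θF_mk]
  exact βA_mem hT h _

theorem θF_T {g : Fin 3 → K3} {T : K3} {c : ℂ}
    (hg : g 2 * (g 0 ^ 4 - g 1) = algebraMap ℂ K3 c * T ^ n) :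
    θF g T c hg (mkF n (Polynomial.C Polynomial.X)) = T := by
  rw [θF_mk, evl_eval, Polynomial.eval_C]
  simp only [βA, Polynomial.aevalTower_X]

theorem θF_A {g : Fin 3 → K3} {T : K3} {c : ℂ}
    (hg : g 2 * (g 0 ^ 4 - g 1) = algebraMap ℂ K3 c * T ^ n) (a : AmT) :
    θF g T c hg (mkF n (Polynomial.C (Polynomial.C a))) = αA g a := by
  rw [θF_mk, evl_eval, Polynomial.eval_C]
  simp only [βA, Polynomial.aevalTower_C]

end Pool.Agent.KS6_82.KTn
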