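import Mathlib
import Pool.Agent.KS6_82.KTn.Fam

/-!
# The fibres of the family
-/

set_option autoImplicit false

namespace Pool.Agent.KS6_82.KTn

open Pool.Agent.H436R3.Fol Pool.Agent.H436R3.Can Pool.Agent.H436R3.KT

variable {n : ℕ}

/-- The values of `x`, `y`, `z` on the general fibre. -/
noncomputable def g1 (n : ℕ) (c : ℂ) : Fin 3 → K3 := ![vv 0, yv, algebraMap ℂ K3 c * zv n]

theorem g1_rel (c : ℂ) : g1 n c 2 * (g1 n c 0 ^ 4 - g1 n c 1) = algebraMap ℂ K3 c * vv 2 ^ n := by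
  change algebraMap ℂ K3 c * zv n * (vv 0 ^ 4 - yv) = _
  rw [y_rel, ← q_zv]
  ring

theorem g0_rel [NeZero n] : g0 2 * (g0 0 ^ 4 - g0 1) = algebraMap ℂ K3 0 * vv 1 ^ n := by
  change vv 2 * (vv 0 ^ 4 - vv 0 ^ 4) = _
  rw [map_zero]
  ring

theorem g1_ind [NeZero n] {c : ℂ} (hc : c ≠ 0) : AlgebraicIndependent ℂ (g1 n c) := by
  have hc' : algebraMap ℂ K3 c ≠ 0 := (map_ne_zero _).2 hc
  have hn : (n : K3) ≠ 0 := Nat.cast_ne_zero.2 (NeZero.ne n)
  apply Pool.Agent.H135R2.VS.algInd_of_der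
  intro v
  set b : K3 := 4 * vv 0 ^ 3 * v 0 - v 1 with hb
  refine ⟨(v 0 / vv 0) • th 0 + (b / vv 1) • th 1 +
    ((v 2 / (algebraMap ℂ K3 c * zv n) + b / vv 1) / n) • th 2, fun j => ?_⟩
  have h0 := vv_ne 0
  have h1 := vv_ne 1
  have h2 := vv_ne 2
  have hz := zv_ne (n := n)
  have e : ∀ D : Derivation ℂ K3 K3,
      D (zv n) = zv n * (n * (D (vv 2) / vv 2) - D (vv 1) / vv 1) := by
    intro D
    have h3 := logDer_mono D ![0, -1, n]
    rw [div_eq_iff (mono_ne _)] at h3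
    change D (zv n) = _ * zv n at h3
    rw [h3]
    simp
    ring
  fin_cases j
  · change _ = v 0
    change ((v 0 / vv 0) • th 0 + (b / vv 1) • th 1 +
      ((v 2 / (algebraMap ℂ K3 c * zv n) + b / vv 1) / n) • th 2) (vv 0) = v 0
    simp [th_vv]
    field_simp
  · change ((v 0 / vv 0) • th 0 + (b / vv 1) • th 1 +
      ((v 2 / (algebraMap ℂ K3 c * zv n) + b / vv 1) / n) • th 2) yv = v 1
    rw [yv_D]
    simp [th_vv]
    field_simp
    rw [hb]
    ring
  · change ((v 0 / vv 0) • th 0 + (b / vv 1) • th 1 +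
      ((v 2 / (algebraMap ℂ K3 c * zv n) + b / vv 1) / n) • th 2) (algebraMap ℂ K3 c * zv n) = v 2
    rw [Derivation.leibniz, Derivation.map_algebraMap, smul_zero, add_zero, e, smul_eq_mul]
    simp [th_vv]
    field_simp
    ring

/-- The values of the automorphism. -/
noncomputable def gn (ζ : ℂ) : Fin 3 → K3 := ![vv 0, vv 1, algebraMap ℂ K3 ζ * vv 2]

theorem gn_ind {ζ : ℂ} (hζ : ζ ≠ 0) : AlgebraicIndependent ℂ (gn ζ) := by
  have hζ' : algebraMap ℂ K3 ζ ≠ 0 := (map_ne_zero _).2 hζ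
  refine algInd_of_log ?_ th ?_
  · intro i
    fin_cases i
    · exact vv_ne 0
    · exact vv_ne 1
    · exact mul_ne_zero hζ' (vv_ne 2)
  · intro i j
    fin_cases j
    · exact th_vv i 0
    · exact th_vv i 1
    · change th i (algebraMap ℂ K3 ζ * vv 2) = if i = 2 then algebraMap ℂ K3 ζ * vv 2 else 0
      rw [Derivation.leibniz, Derivation.map_algebraMap, smul_zero, add_zero, th_vv]
      split_ifs
      · rfl
      · exact smul_zero _

/-- The automorphism `T ↦ ζ T`. -/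
noncomputable def nu {ζ : ℂ} (hζ : ζ ≠ 0) : K3 →ₐ[ℂ] K3 := hom (gn ζ) (gn_ind hζ)

theorem nu_vv {ζ : ℂ} (hζ : ζ ≠ 0) (i : Fin 3) : nu hζ (vv i) = gn ζ i :=
  hom_vv (gn ζ) (gn_ind hζ) i

theorem nu_zv {ζ : ℂ} (hζ : ζ ≠ 0) (h1 : ζ ^ n = 1) : nu hζ (zv n) = zv n := by
  apply mul_left_cancel₀ (vv_ne 1)
  have h := congrArg (nu hζ) (q_zv (n := n))
  rw [map_mul, map_pow, nu_vv, nu_vv] at h
  change vv 1 * nu hζ (zv n) = (algebraMap ℂ K3 ζ * vv 2) ^ n at h
  rw [h, q_zv, mul_pow, ← map_pow, h1, map_one, one_mul]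

theorem nu_yv {ζ : ℂ} (hζ : ζ ≠ 0) : nu hζ yv = yv := by
  rw [yv, map_sub, map_pow, nu_vv, nu_vv]
  rfl

theorem nu_α {ζ : ℂ} (hζ : ζ ≠ 0) (h1 : ζ ^ n = 1) (c : ℂ) (a : AmT) :
    nu hζ (αA (g1 n c) a) = αA (g1 n c) a := by
  have h : (nu hζ).comp (MvPolynomial.aeval (g1 n c)) = MvPolynomial.aeval (g1 n c) := by
    apply MvPolynomial.algHom_ext
    intro i
    rw [AlgHom.comp_apply, MvPolynomial.aeval_X]
    fin_cases i
    · exact nu_vv hζ 0
    · exact nu_yv hζ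
    · change nu hζ (algebraMap ℂ K3 c * zv n) = algebraMap ℂ K3 c * zv n
      rw [map_mul, AlgHom.commutes, nu_zv hζ h1]
  exact DFunLike.congr_fun h (valT a)

theorem αA_inj [NeZero n] {c : ℂ} (hc : c ≠ 0) {a : AmT} (h : αA (g1 n c) a = 0) : a = 0 := by
  apply valT_inj
  rw [map_zero]
  apply aeval_inj (g1_ind (n := n) hc)
  rw [map_zero]
  exact h

/-- Eigenvectors for different eigenvalues of an endomorphism. -/
theorem eig_hom (ν : K3 →ₐ[ℂ] K3) (μ : ℕ → ℂ) (S : Finset ℕ) : Set.InjOn μ S →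
    ∀ u : ℕ → K3, (∀ i ∈ S, ν (u i) = algebraMap ℂ K3 (μ i) * u i) → ∑ i ∈ S, u i = 0 →
      ∀ i ∈ S, u i = 0 := by
  classical
  induction S using Finset.induction_on with
  | empty => intro _ u _ _ i hi; exact absurd hi (Finset.notMem_empty i)
  | insert a S ha ih =>
    intro hμ u hu h0
    have h1 := congrArg ν h0
    rw [Finset.sum_insert ha] at h0 h1
    rw [map_add, map_sum, map_zero, hu a (Finset.mem_insert_self _ _)] at h1
    have h3 : ∑ i ∈ S, ν (u i) = ∑ i ∈ S, algebraMap ℂ K3 (μ i) * u i :=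
      Finset.sum_congr rfl fun i hi => hu i (Finset.mem_insert_of_mem hi)
    rw [h3] at h1
    have h2 : ∑ i ∈ S, algebraMap ℂ K3 (μ i - μ a) * u i = 0 := by
      have h4 : ∑ i ∈ S, algebraMap ℂ K3 (μ i - μ a) * u i =
          (algebraMap ℂ K3 (μ a) * u a + ∑ i ∈ S, algebraMap ℂ K3 (μ i) * u i) -
            algebraMap ℂ K3 (μ a) * (u a + ∑ i ∈ S, u i) := by
        simp only [map_sub, sub_mul]
        rw [Finset.sum_sub_distrib, ← Finset.mul_sum]
        ring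
      rw [h4, h1, h0, mul_zero, sub_zero]
    have h4 : ∀ i ∈ S, algebraMap ℂ K3 (μ i - μ a) * u i = 0 := by
      refine ih (hμ.mono (by simp)) (fun i => algebraMap ℂ K3 (μ i - μ a) * u i) ?_ h2
      intro i hi
      rw [map_mul, AlgHom.commutes, hu i (Finset.mem_insert_of_mem hi)]
      ring
    have h5 : ∀ i ∈ S, u i = 0 := by
      intro i hi
      refine (mul_eq_zero.1 (h4 i hi)).resolve_left ?_
      intro h
      rw [map_eq_zero, sub_eq_zero] at h
      apply ha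
      have h6 := hμ (Finset.mem_coe.2 (Finset.mem_insert_of_mem hi))
        (Finset.mem_coe.2 (Finset.mem_insert_self a S)) h
      rwa [← h6]
    intro i hi
    rcases Finset.mem_insert.1 hi with rfl | hi
    · rw [Finset.sum_eq_zero h5, add_zero] at h0
      exact h0
    · exact h5 i hi

theorem ker1 [NeZero n] {c : ℂ} (hc : c ≠ 0) (b : BT) (hb : βA (g1 n c) (vv 2) b = 0) :
    eqc n c ∣ b := by
  have hcc : algebraMap ℂ AmT c * algebraMap ℂ AmT c⁻¹ = 1 := by
    rw [← map_mul, mul_inv_cancel₀ hc, map_one]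
  have hn0 : n ≠ 0 := NeZero.ne n
  set M : BT := Polynomial.X ^ n - Polynomial.C (algebraMap ℂ AmT c⁻¹ * hT) with hM
  have hmon : M.Monic := Polynomial.monic_X_pow_sub_C _ hn0
  have hMc : M = -(Polynomial.C (algebraMap ℂ AmT c⁻¹)) * eqc n c := by
    have h1 : algebraMap ℂ BT c = Polynomial.C (algebraMap ℂ AmT c) := rfl
    have h2 : (Polynomial.C (algebraMap ℂ AmT c) * Polynomial.C (algebraMap ℂ AmT c⁻¹) : BT) = 1 := by
      rw [← Polynomial.C_mul, hcc, Polynomial.C_1]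
    rw [hM, eqc, h1, Polynomial.C_mul]
    linear_combination (-Polynomial.X ^ n) * h2
  have hβM : βA (g1 n c) (vv 2) M = 0 := by
    rw [hMc, map_mul, βA_eqc _ _ _ (g1_rel c), mul_zero]
  have hdvd : eqc n c ∣ M := by
    rw [hMc]
    exact dvd_mul_left _ _
  refine hdvd.trans ?_
  have hM1 : M ≠ 1 := by
    intro h
    have h1 : M.natDegree = n := Polynomial.natDegree_X_pow_sub_C
    rw [h, Polynomial.natDegree_one] at h1
    exact hn0 h1.symm
  have hdeg : (b %ₘ M).natDegree < n := by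
    have h1 : M.natDegree = n := Polynomial.natDegree_X_pow_sub_C
    have h2 := Polynomial.natDegree_modByMonic_lt b hmon hM1
    omega
  set r := b %ₘ M with hr
  have h1 := Polynomial.modByMonic_add_div b M
  have h2 := hb
  rw [← h1, map_add, map_mul, hβM, zero_mul, add_zero] at h2
  have h3 : βA (g1 n c) (vv 2) r = ∑ k ∈ Finset.range n, αA (g1 n c) (r.coeff k) * vv 2 ^ k := by
    change Polynomial.eval₂ (αA (g1 n c) : AmT →+* K3) (vv 2) r = _
    rw [Polynomial.eval₂_eq_sum_range' _ hdeg]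
    rfl
  rw [← hr, h3] at h2
  obtain ⟨ζ, hζ⟩ : ∃ ζ : ℂ, IsPrimitiveRoot ζ n := ⟨_, Complex.isPrimitiveRoot_exp n hn0⟩
  have hζ0 : ζ ≠ 0 := hζ.ne_zero hn0
  have h4 := eig_hom (nu hζ0) (fun k => ζ ^ k) (Finset.range n) (by
      intro i hi j hj hij
      exact hζ.pow_inj (Finset.mem_range.1 hi) (Finset.mem_range.1 hj) hij)
    (fun k => αA (g1 n c) (r.coeff k) * vv 2 ^ k) (by
      intro k _
      rw [map_mul, nu_α hζ0 hζ.pow_eq_one, map_pow, nu_vv]
      change αA (g1 n c) (r.coeff k) * (algebraMap ℂ K3 ζ * vv 2) ^ k = _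
      rw [mul_pow, map_pow]
      ring) h2
  have h5 : r = 0 := by
    ext k
    rw [Polynomial.coeff_zero]
    by_cases hk : k < n
    · have h6 := (mul_eq_zero.1 (h4 k (Finset.mem_range.2 hk))).resolve_right
        (pow_ne_zero _ (vv_ne 2))
      exact αA_inj hc h6
    · exact Polynomial.coeff_eq_zero_of_natDegree_lt (by omega)
  rw [← hr, h5, zero_add] at h1
  rw [← h1]
  exact dvd_mul_right _ _

theorem ker0 [NeZero n] (b : BT) (hb : βA g0 (vv 1) b = 0) : eqc n 0 ∣ b := by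
  have h1 := Pool.Agent.H436R3.KT.ker0 b hb
  have he : eqc n 0 = Pool.Agent.H436R3.KT.eqc 0 := by
    rw [eqc, Pool.Agent.H436R3.KT.eqc, map_zero, zero_mul, zero_mul]
  rw [he]
  exact h1

end Pool.Agent.KS6_82.KTn
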