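import Mathlib
import Pool.Agent.KS6_82.KTn.Fib
import Pool.Agent.KS6_82.KTn.Norm
import Pool.Agent.KS6_82.KTn.Discr

/-!
# Assembly
-/

set_option autoImplicit false

namespace Pool.Agent.KS6_82.KTn

open Pool.Agent.H436R3.Fol Pool.Agent.H436R3.Can Pool.Agent.H436R3.KT

variable {n : ℕ}

theorem s3_eqD [NeZero n] : s3 (eqD n) = 0 := by
  rw [eqD, map_sub, map_mul]
  simp only [s3, Polynomial.aevalTower_C, Polynomial.aevalTower_X]
  rw [map_pow]
  simp only [s2, Polynomial.aevalTower_C, Polynomial.aevalTower_X]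
  rw [s1, AlgHom.comp_apply, s0_h, map_zero, zero_pow (NeZero.ne n), mul_zero, sub_zero]

/-- The section. -/
noncomputable def sF (n : ℕ) [NeZero n] : RF n →ₐ[ℂ] Polynomial ℂ :=
  Ideal.Quotient.liftₐ (Ideal.span {eqD n}) s3 (by
    intro a ha
    rw [Ideal.mem_span_singleton] at ha
    obtain ⟨b, rfl⟩ := ha
    rw [map_mul, s3_eqD, zero_mul])

theorem sF_mk [NeZero n] (f : CT) : sF n (mkF n f) = s3 f := rfl

theorem sF_t [NeZero n] : sF n (tF n) = Polynomial.X := by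
  rw [tF, sF_mk]
  simp only [s3, Polynomial.aevalTower_X]

/-- The projection to a fibre. -/
noncomputable def πF (S : Subalgebra ℂ K3) (g : Fin 3 → K3) (T : K3) (c : ℂ)
    (hg : g 2 * (g 0 ^ 4 - g 1) = algebraMap ℂ K3 c * T ^ n) (hT : T ∈ S)
    (h : ∀ i j, i ≤ 4 → j ≤ 1 → g 2 * (g 0 ^ i * g 1 ^ j) ∈ S) : RF n →ₐ[ℂ] S :=
  (θF g T c hg).codRestrict S (θF_mem hg hT h)

section proj

variable {S : Subalgebra ℂ K3} {g : Fin 3 → K3} {T : K3} {c : ℂ}
  (hg : g 2 * (g 0 ^ 4 - g 1) = algebraMap ℂ K3 c * T ^ n) (hT : T ∈ S)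
  (h : ∀ i j, i ≤ 4 → j ≤ 1 → g 2 * (g 0 ^ i * g 1 ^ j) ∈ S)

theorem πF_coe (x : RF n) : (πF S g T c hg hT h x : K3) = θF g T c hg x := rfl

theorem πF_ker (hk : ∀ b : BT, βA g T b = 0 → eqc n c ∣ b) :
    RingHom.ker (πF S g T c hg hT h) = Ideal.span {tF n - algebraMap ℂ (RF n) c} := by
  apply le_antisymm
  · intro x hx
    refine θF_ker g T c hg hk ?_
    rw [RingHom.mem_ker] at hx
    rw [← πF_coe hg hT h, hx]
    rfl
  · rw [Ideal.span_singleton_le_iff_mem, RingHom.mem_ker]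
    apply Subtype.ext
    rw [πF_coe, θF_t]
    rfl

theorem πF_surj {G : Set K3} (hG : S = Algebra.adjoin ℂ G)
    (hr : ∀ y ∈ G, ∃ x, θF g T c hg x = y) : Function.Surjective (πF S g T c hg hT h) := by
  intro y
  have h1 : S ≤ (θF g T c hg).range := by
    rw [hG, Algebra.adjoin_le_iff]
    intro y hy
    obtain ⟨x, hx⟩ := hr y hy
    exact ⟨x, hx⟩
  obtain ⟨x, hx⟩ := h1 y.2
  exact ⟨x, Subtype.ext hx⟩

end proj

theorem g1_mem (c : ℂ) (i j : ℕ) (hi : i ≤ 4) (hj : j ≤ 1) :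
    g1 n c 2 * (g1 n c 0 ^ i * g1 n c 1 ^ j) ∈ R1 n := by
  change algebraMap ℂ K3 c * zv n * (vv 0 ^ i * yv ^ j) ∈ R1 n
  rw [mul_assoc]
  exact mul_mem (Subalgebra.algebraMap_mem _ _) (gz_mem hi hj)

theorem surj1 {c : ℂ} (hc : c ≠ 0) :
    Function.Surjective (πF (R1 n) (g1 n c) (vv 2) c (g1_rel c) T_mem1 (g1_mem c)) := by
  refine πF_surj _ _ _ (G := G1 n) rfl ?_
  rintro _ (rfl | ⟨p, rfl⟩)
  · exact ⟨_, θF_T (g1_rel c)⟩
  · refine ⟨algebraMap ℂ (RF n) c⁻¹ * mkF n (Polynomial.C (Polynomial.C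
      (gT4 p.1 p.2 (by omega) (by omega)))), ?_⟩
    rw [map_mul, θF_A, αA_ga, AlgHom.commutes]
    change algebraMap ℂ K3 c⁻¹ * (algebraMap ℂ K3 c * zv n * (vv 0 ^ (p.1 : ℕ) * yv ^ (p.2 : ℕ))) =
      zv n * (vv 0 ^ (p.1 : ℕ) * yv ^ (p.2 : ℕ))
    have hcc : algebraMap ℂ K3 c⁻¹ * algebraMap ℂ K3 c = 1 := by
      rw [← map_mul, inv_mul_cancel₀ hc, map_one]
    linear_combination (zv n * (vv 0 ^ (p.1 : ℕ) * yv ^ (p.2 : ℕ))) * hcc

theorem surj0 [NeZero n] :
    Function.Surjective (πF (n := n) R0 g0 (vv 1) 0 g0_rel T_mem0 g0_mem) := by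
  refine πF_surj _ _ _ (G := G0) rfl ?_
  rintro _ (rfl | ⟨k, rfl⟩)
  · exact ⟨_, θF_T g0_rel⟩
  · obtain ⟨i, j, hi, hj, hk⟩ : ∃ i j, i ≤ 4 ∧ j ≤ 1 ∧ (k : ℕ) = i + 4 * j := by
      by_cases h1 : (k : ℕ) ≤ 4
      · exact ⟨k, 0, h1, by norm_num, by omega⟩
      · exact ⟨k - 4, 1, by omega, le_rfl, by omega⟩
    refine ⟨mkF n (Polynomial.C (Polynomial.C (gT4 i j hi hj))), ?_⟩
    rw [θF_A, αA_ga]
    change vv 2 * (vv 0 ^ i * (vv 0 ^ 4) ^ j) = vv 2 * vv 0 ^ (k : ℕ)
    rw [← pow_mul, ← pow_add, hk]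

/-- The value at the vertex of the functions on the cone. -/
theorem pos_vertex [NeZero n] (c : ℂ) (a : AmT) :
    (vX 2).Pos (αA (g1 n c) a - algebraMap ℂ K3 (s0 a)) := by
  have h1 : (MvPolynomial.X 2 : Q3) ∣ valT a - MvPolynomial.C ((valT a).coeff 0) := by
    apply X2_dvd
    intro m hm
    by_cases h2 : m 2 = 0
    · left
      have h3 := Am_supp (show valT a ∈ Am from (a : Am).2) hm
      ext k
      fin_cases k
      · change m 0 = 0
        omega
      · change m 1 = 0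
        omega
      · exact h2
    · exact Or.inr h2
  obtain ⟨r, hr⟩ := h1
  have h2 : s0 a = (valT a).coeff 0 := by
    change MvPolynomial.aeval (0 : Fin 3 → ℂ) (valT a) = _
    rw [MvPolynomial.aeval_zero, MvPolynomial.constantCoeff_eq]
    rfl
  have h3 : αA (g1 n c) a - algebraMap ℂ K3 (s0 a) =
      MvPolynomial.aeval (g1 n c) r * g1 n c 2 := by
    have h4 := congrArg (MvPolynomial.aeval (g1 n c)) hr
    rw [map_sub, map_mul, MvPolynomial.aeval_X, MvPolynomial.aeval_C] at h4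
    rw [h2, mul_comm, ← h4]
    rfl
  rw [h3]
  have hreg : ∀ i, (vX 2).Reg (g1 n c i) := by
    intro i
    fin_cases i
    · exact (valP_divisor (prime_X 2)).1 _ (vv_mem 0)
    · exact (valP_divisor (prime_X 2)).1 _ (sub_mem (pow_mem (vv_mem 0) _) (vv_mem 1))
    · exact v0_reg (n := n) _ (mul_mem (Subalgebra.algebraMap_mem _ _) z_mem1)
  refine (vX 2).pos_mul_left ?_ ?_
  · have h5 : ∀ q : Q3, MvPolynomial.aeval (g1 n c) q ∈ regAlg (vX 2) := by
      intro q
      induction q using MvPolynomial.induction_on with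
      | C a => rw [MvPolynomial.aeval_C]; exact Subalgebra.algebraMap_mem _ _
      | add p q hp hq => rw [map_add]; exact add_mem hp hq
      | mul_X p j hp => rw [map_mul, MvPolynomial.aeval_X]; exact mul_mem hp (hreg j)
    exact h5 r
  · change (vX 2).Pos (algebraMap ℂ K3 c * zv n)
    refine (vX 2).pos_mul_left ((vX 2).reg_const _) (Or.inr ?_)
    rw [v0_zv]
    exact_mod_cast NeZero.pos n

variable [NeZero n]

/-- The vertex. -/
noncomputable def P1r (n : ℕ) [NeZero n] : R1 n →ₐ[ℂ] ℂ := evalHom (vX 2) (R1 n) v0_const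

theorem P1_α {c : ℂ} (a : AmT) (h : αA (g1 n c) a ∈ R1 n) : P1r n ⟨αA (g1 n c) a, h⟩ = s0 a :=
  evalHom_eq _ _ _ _ (pos_vertex c a)

/-- The section goes through the vertex. -/
theorem P1_sec (c : ℂ) (x : RF n) :
    P1r n (πF (R1 n) (g1 n c) (vv 2) c (g1_rel c) T_mem1 (g1_mem c) x) = (sF n x).eval c := by
  obtain ⟨f, rfl⟩ := mkF_surj x
  have h : ((P1r n).comp (πF (R1 n) (g1 n c) (vv 2) c (g1_rel c) T_mem1 (g1_mem c))).comp (mkF n) =
      (Polynomial.aeval c : Polynomial ℂ →ₐ[ℂ] ℂ).comp s3 := by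
    apply Polynomial.algHom_ext'
    · apply Polynomial.algHom_ext'
      · ext a
        have h1 : (πF (R1 n) (g1 n c) (vv 2) c (g1_rel c) T_mem1 (g1_mem c)
            (mkF n (Polynomial.C (Polynomial.C a))) : K3) = αA (g1 n c) a := by
          rw [πF_coe, θF_A]
        have h2 : αA (g1 n c) a ∈ R1 n := by
          rw [← h1]
          exact Subtype.coe_prop _
        have h3 : πF (R1 n) (g1 n c) (vv 2) c (g1_rel c) T_mem1 (g1_mem c)
            (mkF n (Polynomial.C (Polynomial.C a))) = ⟨αA (g1 n c) a, h2⟩ := Subtype.ext h1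
        change P1r n (πF (R1 n) (g1 n c) (vv 2) c (g1_rel c) T_mem1 (g1_mem c)
          (mkF n (Polynomial.C (Polynomial.C a)))) =
            Polynomial.aeval c (s3 (Polynomial.C (Polynomial.C a)))
        rw [h3, P1_α]
        simp only [s3, s2, Polynomial.aevalTower_C]
        rw [s1, AlgHom.comp_apply, Algebra.ofId_apply, AlgHom.commutes]
        rfl
      · change P1r n (πF (R1 n) (g1 n c) (vv 2) c (g1_rel c) T_mem1 (g1_mem c)
          (mkF n (Polynomial.C Polynomial.X))) = Polynomial.aeval c (s3 (Polynomial.C Polynomial.X))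
        have h3 : πF (R1 n) (g1 n c) (vv 2) c (g1_rel c) T_mem1 (g1_mem c)
            (mkF n (Polynomial.C Polynomial.X)) = ⟨vv 2, T_mem1⟩ :=
          Subtype.ext (by rw [πF_coe, θF_T])
        rw [h3]
        simp only [s3, s2, Polynomial.aevalTower_C, Polynomial.aevalTower_X]
        rw [map_zero]
        refine evalHom_eq _ _ _ _ ?_
        rw [map_zero, sub_zero]
        right
        rw [vX_ord]
        decide
    · change P1r n (πF (R1 n) (g1 n c) (vv 2) c (g1_rel c) T_mem1 (g1_mem c)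
        (mkF n Polynomial.X)) = Polynomial.aeval c (s3 Polynomial.X)
      have h3 : πF (R1 n) (g1 n c) (vv 2) c (g1_rel c) T_mem1 (g1_mem c) (mkF n Polynomial.X) =
          algebraMap ℂ (R1 n) c := by
        apply Subtype.ext
        have h4 := θF_t (g1 n c) (vv 2) c (g1_rel c)
        rw [map_sub, AlgHom.commutes, sub_eq_zero] at h4
        exact h4
      rw [h3, AlgHom.commutes]
      simp only [s3, Polynomial.aevalTower_X, Polynomial.aeval_X]
      rfl
  have h2 := DFunLike.congr_fun h f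
  change P1r n (πF (R1 n) (g1 n c) (vv 2) c (g1_rel c) T_mem1 (g1_mem c) (mkF n f)) =
    Polynomial.aeval c (s3 f) at h2
  rw [h2, sF_mk, Polynomial.coe_aeval_eq_eval]

open Classical in
/-- The fibres. -/
noncomputable def XF (n : ℕ) (c : ℂ) : AffVar K3 := if c = 0 then X0 else X1 n

theorem XF_zero : XF n 0 = X0 := if_pos rfl

theorem XF_ne {c : ℂ} (hc : c ≠ 0) : XF n c = X1 n := if_neg hc

/-- The property of the points of the section. -/
def Bad (n : ℕ) (X : AffVar K3) (P : Pt X) : Prop :=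
  ∃ v : DVal K3, OverAt P v ∧ IsCanOrd X.T v (-1) ∧
    ∀ (B : EffDiv X) (m : ℕ) (ρ : Fin m → ℝ) (g : Fin m → K3), IsLocalEqAt B P ρ g →
      -1 - ∑ i, ρ i * (v.ord (g i) : ℝ) ≤ -((n : ℝ) / 2)

theorem bad1 : Bad n (X1 n) (P1 n) := by
  refine ⟨vX 2, v0_at, v0_isCan, fun B m ρ g h => ?_⟩
  have := discr_le B ρ g h
  linarith

theorem exists_π (c : ℂ) : ∃ π : RF n →ₐ[ℂ] (XF n c).R, Function.Surjective π ∧
    RingHom.ker π = Ideal.span {tF n - algebraMap ℂ (RF n) c} ∧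
    (c ≠ 0 → ∃ P : Pt (XF n c), (∀ a, P (π a) = (sF n a).eval c) ∧ Bad n (XF n c) P) := by
  by_cases hc : c = 0
  · have h : XF n c = X0 := if_pos hc
    rw [h]
    subst hc
    exact ⟨πF R0 g0 (vv 1) 0 g0_rel T_mem0 g0_mem, surj0, πF_ker _ _ _ ker0,
      fun h => absurd rfl h⟩
  · have h : XF n c = X1 n := if_neg hc
    rw [h]
    exact ⟨πF (R1 n) (g1 n c) (vv 2) c (g1_rel c) T_mem1 (g1_mem c), surj1 hc,
      πF_ker _ _ _ (ker1 hc), fun _ => ⟨P1 n, P1_sec c, bad1⟩⟩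

/-- The family. -/
noncomputable def family (n : ℕ) [NeZero n] : FlatFamily K3 where
  A := RF n
  ring := inferInstance
  alg := inferInstance
  fg := fgF
  t := tF n
  flat := flatF
  X := XF n
  π := fun c => (exists_π c).choose
  surj := fun c => (exists_π c).choose_spec.1
  ker := fun c => (exists_π c).choose_spec.2.1

/-- The section of the family. -/
noncomputable def sect (n : ℕ) [NeZero n] : Sec (family n) where
  σ := sF n
  map_t := sF_t

theorem normal_XF (c : ℂ) : IsNormal (XF n c) := by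
  by_cases hc : c = 0
  · rw [hc, XF_zero]
    exact R0_normal
  · rw [XF_ne hc]
    exact R1_normal

theorem sect_bad {c : ℂ} (hc : c ≠ 0) :
    ∃ P : Pt ((family n).X c), (sect n).At c P ∧ Bad n ((family n).X c) P :=
  (exists_π c).choose_spec.2.2 hc

end Pool.Agent.KS6_82.KTn
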